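import Pool.Agent.helper22.GS.Spec

/-!
# Project gs: module MXY
-/

set_option autoImplicit false

namespace Pool.Agent.GS

open Module

theorem MXY_mapJ (n : ℕ) (F : Type) [Field F] (ψ : F ≃+* F) :
    (Matrix.J (Fin n) F).map ψ = Matrix.J (Fin n) F := by
  ext i j
  rw [Matrix.map_apply]
  unfold Matrix.J
  rcases i with i | i <;> rcases j with j | j
  · simp
  · rw [Matrix.fromBlocks_apply₁₂, Matrix.neg_apply, map_neg, Matrix.one_apply]
    split_ifs <;> simp
  · rw [Matrix.fromBlocks_apply₂₁, Matrix.one_apply]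
    split_ifs <;> simp
  · simp

theorem MXY_J_ne (n : ℕ) (F : Type) [Field F] (hn : 1 ≤ n) : Matrix.J (Fin n) F ≠ 0 := by
  intro h
  have h1 := congrFun (congrFun h (Sum.inr ⟨0, hn⟩)) (Sum.inl ⟨0, hn⟩)
  unfold Matrix.J at h1
  rw [Matrix.fromBlocks_apply₂₁] at h1
  simp at h1

theorem MXY_inv {n : ℕ} {F : Type} [Field F] (A : (Matrix (Fin n ⊕ Fin n) (Fin n ⊕ Fin n) F)ˣ)
    (ν : F) (h : (A : Matrix (Fin n ⊕ Fin n) (Fin n ⊕ Fin n) F) * Matrix.J (Fin n) F *
      (A : Matrix (Fin n ⊕ Fin n) (Fin n ⊕ Fin n) F).transpose = ν • Matrix.J (Fin n) F) :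
    Matrix.J (Fin n) F = ν • ((A⁻¹ : (Matrix (Fin n ⊕ Fin n) (Fin n ⊕ Fin n) F)ˣ) *
      Matrix.J (Fin n) F *
      ((A⁻¹ : (Matrix (Fin n ⊕ Fin n) (Fin n ⊕ Fin n) F)ˣ) :
        Matrix (Fin n ⊕ Fin n) (Fin n ⊕ Fin n) F).transpose) := by
  set a := (A : Matrix (Fin n ⊕ Fin n) (Fin n ⊕ Fin n) F) with ha
  set b := ((A⁻¹ : (Matrix (Fin n ⊕ Fin n) (Fin n ⊕ Fin n) F)ˣ) :
        Matrix (Fin n ⊕ Fin n) (Fin n ⊕ Fin n) F) with hb
  have hba : b * a = 1 := A.inv_mul
  have h1 : a.transpose * b.transpose = 1 := by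
    rw [← Matrix.transpose_mul, hba, Matrix.transpose_one]
  calc Matrix.J (Fin n) F = (b * a) * Matrix.J (Fin n) F * (a.transpose * b.transpose) := by
        rw [hba, h1, one_mul, mul_one]
    _ = b * (a * Matrix.J (Fin n) F * a.transpose) * b.transpose := by
        simp only [mul_assoc]
    _ = ν • (b * Matrix.J (Fin n) F * b.transpose) := by
        rw [h, Matrix.mul_smul, Matrix.smul_mul]

theorem MXY_tr {n : ℕ} {F : Type} [Field F] (a : Matrix (Fin n ⊕ Fin n) (Fin n ⊕ Fin n) F)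
    (ν : F) (hν : ν ≠ 0) (h : a * Matrix.J (Fin n) F * a.transpose = ν • Matrix.J (Fin n) F) :
    a.transpose * Matrix.J (Fin n) F * a = ν • Matrix.J (Fin n) F := by
  have hJ := Matrix.J_squared (Fin n) F
  have h1 : a * ((-ν⁻¹) • (Matrix.J (Fin n) F * a.transpose * Matrix.J (Fin n) F)) = 1 := by
    rw [Matrix.mul_smul]
    have h2 : a * (Matrix.J (Fin n) F * a.transpose * Matrix.J (Fin n) F) =
        (a * Matrix.J (Fin n) F * a.transpose) * Matrix.J (Fin n) F := by
      simp only [mul_assoc]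
    rw [h2, h, Matrix.smul_mul, hJ, smul_smul, smul_neg]
    rw [neg_mul, inv_mul_cancel₀ hν, neg_smul, one_smul, neg_neg]
  have h3 := mul_eq_one_comm.mp h1
  rw [Matrix.smul_mul] at h3
  have h4 : Matrix.J (Fin n) F * a.transpose * Matrix.J (Fin n) F * a = (-ν) • 1 := by
    have h5 := congrArg (fun M => (-ν) • M) h3
    simp only [smul_smul] at h5
    rw [neg_mul_neg, mul_inv_cancel₀ hν, one_smul] at h5
    exact h5
  have h6 := congrArg (fun M => Matrix.J (Fin n) F * M) h4
  simp only [Matrix.mul_smul, mul_one, ← mul_assoc, hJ] at h6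
  rw [neg_mul, neg_mul, neg_mul, one_mul, neg_smul] at h6
  exact neg_injective h6

theorem MXY : MXY_stmt := by
  intro n F _ hn A ψ ν h
  set a := (A : Matrix (Fin n ⊕ Fin n) (Fin n ⊕ Fin n) F) with ha
  set b := ((A⁻¹ : (Matrix (Fin n ⊕ Fin n) (Fin n ⊕ Fin n) F)ˣ) :
        Matrix (Fin n ⊕ Fin n) (Fin n ⊕ Fin n) F) with hb
  have hba : b * a = 1 := A.inv_mul
  have hab : a * b = 1 := A.mul_inv
  have hinv : Matrix.J (Fin n) F = ν • (b * Matrix.J (Fin n) F * b.transpose) := MXY_inv A ν h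
  have hν : ν ≠ 0 := by
    rintro rfl
    rw [zero_smul] at hinv
    exact MXY_J_ne n F hn hinv
  have htr := MXY_tr a ν hν h
  refine ⟨⟨⟨fun v => a.mulVec (fun i => ψ (v i)), fun w i => ψ.symm ((b.mulVec w) i), ?_, ?_⟩,
    ?_, fun v => rfl⟩, ?_⟩
  · intro v
    funext i
    change ψ.symm ((b.mulVec (a.mulVec (fun i => ψ (v i)))) i) = v i
    rw [Matrix.mulVec_mulVec, hba, Matrix.one_mulVec, RingEquiv.symm_apply_apply]
  · intro w
    change a.mulVec (fun i => ψ (ψ.symm ((b.mulVec w) i))) = w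
    have h1 : (fun i => ψ (ψ.symm ((b.mulVec w) i))) = b.mulVec w := by
      funext i
      rw [RingEquiv.apply_symm_apply]
    rw [h1, Matrix.mulVec_mulVec, hab, Matrix.one_mulVec]
  · refine ⟨hν, ?_, ?_, ?_⟩
    · intro u v
      change a.mulVec (fun i => ψ ((u + v) i)) = a.mulVec (fun i => ψ (u i)) +
        a.mulVec (fun i => ψ (v i))
      rw [← Matrix.mulVec_add]
      congr 1
      funext i
      simp
    · intro c v
      change a.mulVec (fun i => ψ ((c • v) i)) = ψ c • a.mulVec (fun i => ψ (v i))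
      rw [← Matrix.mulVec_smul]
      congr 1
      funext i
      simp
    · intro u v
      change BJ n F (a.mulVec (fun i => ψ (u i))) (a.mulVec (fun i => ψ (v i))) =
        ν * ψ (BJ n F u v)
      unfold BJ
      rw [Matrix.toBilin'_apply', Matrix.toBilin'_apply']
      have h1 : a.mulVec (fun i => ψ (u i)) = Matrix.vecMul (fun i => ψ (u i)) a.transpose :=
        (Matrix.vecMul_transpose a _).symm
      rw [h1, ← Matrix.dotProduct_mulVec, Matrix.mulVec_mulVec, Matrix.mulVec_mulVec,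
        htr, Matrix.smul_mulVec, dotProduct_smul, smul_eq_mul]
      congr 1
      have h2 : (Matrix.J (Fin n) F).mulVec (fun i => ψ (v i)) =
          fun i => ψ ((Matrix.J (Fin n) F).mulVec v i) := by
        funext i
        have h3 := RingHom.map_mulVec (ψ : F →+* F) (Matrix.J (Fin n) F) v i
        have h4 : (Matrix.J (Fin n) F).map (ψ : F →+* F) = Matrix.J (Fin n) F := MXY_mapJ n F ψ
        rw [h4] at h3
        exact h3.symm
      rw [h2]
      exact (RingHom.map_dotProduct (ψ : F →+* F) u ((Matrix.J (Fin n) F).mulVec v)).symm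
  · intro g
    have hg := SymplecticGroup.mem_iff.mp (SymplecticGroup.map_mem (f := ψ) g.2)
    refine ⟨⟨a * (g : Matrix (Fin n ⊕ Fin n) (Fin n ⊕ Fin n) F).map ψ * b, ?_⟩, rfl⟩
    rw [SymplecticGroup.mem_iff]
    set c := (g : Matrix (Fin n ⊕ Fin n) (Fin n ⊕ Fin n) F).map ψ with hc
    have hb2 : b * Matrix.J (Fin n) F * b.transpose = ν⁻¹ • Matrix.J (Fin n) F := by
      have h5 := congrArg (fun M => ν⁻¹ • M) hinv
      simp only [smul_smul, inv_mul_cancel₀ hν, one_smul] at h5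
      exact h5.symm
    calc a * c * b * Matrix.J (Fin n) F * (a * c * b).transpose
        = a * (c * (b * Matrix.J (Fin n) F * b.transpose) * c.transpose) * a.transpose := by
          rw [Matrix.transpose_mul, Matrix.transpose_mul]
          simp only [mul_assoc]
      _ = ν⁻¹ • (a * (c * Matrix.J (Fin n) F * c.transpose) * a.transpose) := by
          rw [hb2, Matrix.mul_smul, Matrix.smul_mul, Matrix.mul_smul, Matrix.smul_mul]
      _ = Matrix.J (Fin n) F := by
          rw [hg, h, smul_smul, inv_mul_cancel₀ hν, one_smul]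

end Pool.Agent.GS
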