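import Pool.Agent.helper22.GS.Spec

/-!
# Project gs: module RP
-/

set_option autoImplicit false

namespace Pool.Agent.GS

open Module

theorem RP_char {F : Type} [Field F] [Finite F] {r : ℕ} (hr : r.Prime) (hd : r ∣ Nat.card F)
    {j : ℕ} (hj : (j : F) = 0) : r ∣ j := by
  have : Fact r.Prime := ⟨hr⟩
  obtain ⟨a, ha⟩ := exists_prime_addOrderOf_dvd_card' r hd
  have ha0 : a ≠ 0 := by
    rintro rfl
    rw [addOrderOf_zero] at ha
    exact hr.one_lt.ne ha
  have h1 : (r : F) * a = 0 := by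
    rw [← nsmul_eq_mul, ← ha]
    exact addOrderOf_nsmul_eq_zero a
  have h2 : (r : F) = 0 := (mul_eq_zero.mp h1).resolve_right ha0
  have h3 : ringChar F ∣ r := (ringChar.spec F r).mp h2
  rcases (Nat.dvd_prime hr).mp h3 with h4 | h4
  · have h5 : ((1 : ℕ) : F) = 0 := (ringChar.spec F 1).mpr (by rw [h4])
    rw [Nat.cast_one] at h5
    exact absurd h5 one_ne_zero
  · rw [← h4]
    exact (ringChar.spec F j).mp hj

theorem RP_pair {F V : Type} [Field F] [AddCommGroup V] [Module F V] [FiniteDimensional F V]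
    (B : LinearMap.BilinForm F V) (h3 : 3 ≤ finrank F V) :
    ∃ x x' : V, LinearIndependent F ![x, x'] ∧ B x x' = 0 := by
  obtain ⟨x, hx⟩ : ∃ x : V, x ≠ 0 := by
    have : Nontrivial V := by
      apply Module.nontrivial_of_finrank_pos (R := F)
      omega
    exact exists_ne 0
  have h1 : 2 ≤ finrank F (LinearMap.ker (B x)) := by
    have h2 := LinearMap.finrank_range_add_finrank_ker (B x)
    have h4 : finrank F (LinearMap.range (B x)) ≤ 1 := by
      calc finrank F (LinearMap.range (B x)) ≤ finrank F F := Submodule.finrank_le _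
        _ = 1 := finrank_self F
    omega
  have h5 : ¬ LinearMap.ker (B x) ≤ Submodule.span F {x} := by
    intro h
    have h6 := Submodule.finrank_mono h
    rw [finrank_span_singleton hx] at h6
    omega
  obtain ⟨x', hx', hx''⟩ := SetLike.not_le_iff_exists.mp h5
  refine ⟨x, x', ?_, LinearMap.mem_ker.mp hx'⟩
  rw [LinearIndependent.pair_iff' hx]
  intro a ha
  exact hx'' (Submodule.mem_span_singleton.mpr ⟨a, ha⟩)

theorem RP (hDU : DU_stmt) : RP_stmt := by
  intro F V _ _ _ _ _ B hB h3 y ν hν hblk r hr hrd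
  obtain ⟨x, x', hind, hxx'⟩ := RP_pair B h3
  have hx0 : x ≠ 0 := hind.ne_zero 0
  refine ⟨tv B x 1 * tv B x' (-ν⁻¹), (SpG B).mul_mem (tv_mem hB x 1) (tv_mem hB x' _), ?_, ?_⟩
  · refine hblk x x' 1 (-ν⁻¹) hind hxx' one_ne_zero (neg_ne_zero.mpr (inv_ne_zero hν)) ?_
    rw [mul_one, mul_neg, mul_inv_cancel₀ hν, neg_neg]
    exact IsSquare.one
  · intro j c hc
    have hcomm : Commute (tv B x 1) (tv B x' (-ν⁻¹)) := tv_comm hB hxx' 1 (-ν⁻¹)
    have hpow : (tv B x 1 * tv B x' (-ν⁻¹)) ^ j = tv B x (j * 1) * tv B x' (j * (-ν⁻¹)) := by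
      rw [hcomm.mul_pow, tv_pow hB, tv_pow hB]
    rw [hpow] at hc
    have hc1 : c = 1 := by
      have h1 := hc x
      rw [Equiv.Perm.mul_apply, tv_apply hB x', hxx', mul_zero, zero_smul, add_zero, tv_apply hB,
        hB.alt, mul_zero, zero_smul, add_zero] at h1
      have h2 : (1 - c) • x = 0 := by
        rw [sub_smul, one_smul, ← h1, sub_self]
      rcases smul_eq_zero.mp h2 with h4 | h4
      · exact (sub_eq_zero.mp h4).symm
      · exact absurd h4 hx0
    obtain ⟨v, hv⟩ := hDU B hB ![x, x'] hind ![-1, 0]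
    have hv0 : B x v = -1 := hv 0
    have hv1 : B x' v = 0 := hv 1
    have hv0' : B v x = 1 := by rw [hB.neg, hv0, neg_neg]
    have hv1' : B v x' = 0 := by rw [hB.neg, hv1, neg_zero]
    have h1 := hc v
    rw [Equiv.Perm.mul_apply, tv_apply hB x', hv1', mul_zero, zero_smul, add_zero, tv_apply hB,
      hv0', hc1, one_smul, mul_one, mul_one] at h1
    have h2 : ((j : F)) • x = 0 := by
      have := add_eq_left.mp h1
      exact this
    rcases smul_eq_zero.mp h2 with h4 | h4
    · exact RP_char hr hrd h4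
    · exact absurd h4 hx0

end Pool.Agent.GS
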